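import Pool.Agent.W787.PS.StmA

/-!
Project PS, part FS: the fundamental solution identity and the weak form.
-/

set_option autoImplicit false

open MeasureTheory Set Metric Filter Topology

noncomputable section

namespace Pool.Agent.W790.PS

open Pool.Agent.W787.PS

/-- the kernel `‖x‖⁻¹` is integrable on balls -/
theorem inv_norm_int (R : ℝ) : IntegrableOn (fun x : ℂ => ‖x‖⁻¹) (ball 0 R) := by
  have h : LocallyIntegrable (fun x : ℂ => ‖x‖⁻¹) := by
    refine locallyIntegrable_of_norm_le_rpow (C := 1) (α := 1) ?_ ?_ ?_ ?_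
    · rw [Complex.finrank_real_complex]; norm_num
    · rw [Complex.finrank_real_complex]; norm_num
    · refine Eventually.of_forall fun x => ?_
      rw [Real.rpow_neg_one, norm_inv, norm_norm, one_mul]
    · exact (measurable_norm.inv).aestronglyMeasurable
  exact (h.integrableOn_isCompact (isCompact_closedBall 0 R)).mono_set ball_subset_closedBall

section
variable {φ : ℂ → ℝ}

theorem fd_bound (h : ContDiff ℝ 1 φ) (hc : HasCompactSupport φ) :
    ∃ M : ℝ, 0 ≤ M ∧ ∀ x, ‖fderiv ℝ φ x‖ ≤ M := by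
  obtain ⟨M, hM⟩ := (hc.fderiv (𝕜 := ℝ)).exists_bound_of_continuous (h.continuous_fderiv one_ne_zero)
  exact ⟨M, (norm_nonneg _).trans (hM 0), hM⟩

theorem fd_supp (hc : HasCompactSupport φ) :
    ∃ R : ℝ, 0 < R ∧ ∀ x : ℂ, R ≤ ‖x‖ → φ x = 0 ∧ fderiv ℝ φ x = 0 := by
  obtain ⟨R, hR, hR'⟩ := hc.isCompact.isBounded.exists_pos_norm_lt
  refine ⟨R, hR, fun x hx => ?_⟩
  have hx' : x ∉ tsupport φ := fun h => absurd (hR' x h) (not_lt.2 hx)
  exact ⟨image_eq_zero_of_notMem_tsupport hx', fderiv_of_notMem_tsupport ℝ hx'⟩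

theorem fs_int0 (h : ContDiff ℝ 1 φ) (hc : HasCompactSupport φ) :
    Integrable (fun x => fderiv ℝ φ x x / ‖x‖ ^ 2) := by
  obtain ⟨M, hM0, hM⟩ := fd_bound h hc
  obtain ⟨R, hR, hR'⟩ := fd_supp hc
  have hcf := h.continuous_fderiv one_ne_zero
  have hmeas : AEStronglyMeasurable (fun x : ℂ => fderiv ℝ φ x x / ‖x‖ ^ 2) := by
    have h1 : Continuous fun x : ℂ => fderiv ℝ φ x x := hcf.clm_apply continuous_id
    have h2 : Continuous fun x : ℂ => ‖x‖ ^ 2 := by fun_prop
    exact (h1.measurable.div h2.measurable).aestronglyMeasurable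
  have hb : IntegrableOn (fun x : ℂ => fderiv ℝ φ x x / ‖x‖ ^ 2) (ball 0 R) := by
    refine Integrable.mono' ((inv_norm_int R).const_mul M) hmeas.restrict ?_
    refine Eventually.of_forall fun x => ?_
    rcases eq_or_ne x 0 with rfl | hx
    · simp
    · have hx' : 0 < ‖x‖ := norm_pos_iff.2 hx
      rw [norm_div, norm_pow, norm_norm, div_le_iff₀ (by positivity)]
      calc ‖fderiv ℝ φ x x‖ ≤ ‖fderiv ℝ φ x‖ * ‖x‖ := ContinuousLinearMap.le_opNorm _ _
        _ ≤ M * ‖x‖ := mul_le_mul_of_nonneg_right (hM x) hx'.le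
        _ = M * ‖x‖⁻¹ * ‖x‖ ^ 2 := by field_simp
  refine (integrableOn_iff_integrable_of_support_subset ?_).1 hb
  intro x hx
  by_contra hx'
  apply hx
  rw [mem_ball_zero_iff, not_lt] at hx'
  show fderiv ℝ φ x x / ‖x‖ ^ 2 = 0
  rw [(hR' x hx').2]
  simp

/-- the unit vector -/
def uv (θ : ℝ) : ℂ := Real.cos θ + Real.sin θ * Complex.I

theorem uv_cont : Continuous uv := by
  unfold uv
  fun_prop

theorem uv_norm (θ : ℝ) : ‖uv θ‖ = 1 := by
  unfold uv
  have := Complex.norm_cos_add_sin_mul_I θ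
  push_cast
  exact this

theorem radial (h : ContDiff ℝ 1 φ) (hc : HasCompactSupport φ) (θ : ℝ) :
    ∫ r in Ioi (0 : ℝ), fderiv ℝ φ (r * uv θ) (uv θ) = -φ 0 := by
  have hg : ContDiff ℝ 1 (fun r : ℝ => φ (r * uv θ)) := by
    refine h.comp ?_
    have : (fun r : ℝ => (r : ℂ) * uv θ) = fun r : ℝ => r • uv θ := by
      funext r; rw [Complex.real_smul]
    rw [this]
    exact contDiff_id.smul contDiff_const
  have hgc : HasCompactSupport (fun r : ℝ => φ (r * uv θ)) := by
    obtain ⟨R, hR, hR'⟩ := fd_supp hc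
    refine HasCompactSupport.of_support_subset_isCompact (isCompact_closedBall 0 R) ?_
    intro r hr
    rw [mem_closedBall_zero_iff]
    by_contra hcon
    push Not at hcon
    apply hr
    refine (hR' _ ?_).1
    rw [norm_mul, uv_norm, mul_one, Complex.norm_real]
    exact hcon.le
  have hd : ∀ r : ℝ, deriv (fun r : ℝ => φ (r * uv θ)) r = fderiv ℝ φ (r * uv θ) (uv θ) := by
    intro r
    have h1 : HasFDerivAt φ (fderiv ℝ φ (r * uv θ)) (r * uv θ) :=
      (h.differentiable one_ne_zero _).hasFDerivAt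
    have h2 : HasDerivAt (fun r : ℝ => (r : ℂ) * uv θ) (uv θ) r := by
      have := (Complex.ofRealCLM.hasDerivAt (x := r)).mul_const (uv θ)
      simpa using this
    exact (h1.comp_hasDerivAt r h2).deriv
  have := hgc.integral_Ioi_deriv_eq hg 0
  simp only [hd] at this
  simpa using this

theorem fs_val0 (h : ContDiff ℝ 1 φ) (hc : HasCompactSupport φ) :
    ∫ x, fderiv ℝ φ x x / ‖x‖ ^ 2 = -(2 * Real.pi) * φ 0 := by
  rw [← Complex.integral_comp_polarCoord_symm]
  have e1 : ∫ p in polarCoord.target, p.1 • (fderiv ℝ φ (Complex.polarCoord.symm p)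
        (Complex.polarCoord.symm p) / ‖Complex.polarCoord.symm p‖ ^ 2) =
      ∫ p in Ioi (0 : ℝ) ×ˢ Ioo (-Real.pi) Real.pi, fderiv ℝ φ (p.1 * uv p.2) (uv p.2) := by
    refine setIntegral_congr_fun (measurableSet_Ioi.prod measurableSet_Ioo) ?_
    rintro ⟨r, θ⟩ ⟨hr, -⟩
    have hr' : (0 : ℝ) < r := hr
    have e : Complex.polarCoord.symm (r, θ) = r • uv θ := by
      rw [Complex.polarCoord_symm_apply, Complex.real_smul]
      rfl
    simp only []
    rw [e, map_smul, norm_smul, uv_norm, mul_one, Real.norm_eq_abs, abs_of_pos hr',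
      Complex.real_smul, smul_eq_mul, smul_eq_mul]
    field_simp
  rw [e1]
  have hH : Continuous fun p : ℝ × ℝ => fderiv ℝ φ (p.1 * uv p.2) (uv p.2) := by
    have h1 : Continuous fun p : ℝ × ℝ => (p.1 : ℂ) * uv p.2 :=
      (Complex.continuous_ofReal.comp continuous_fst).mul (uv_cont.comp continuous_snd)
    exact ((h.continuous_fderiv one_ne_zero).comp h1).clm_apply (uv_cont.comp continuous_snd)
  obtain ⟨R, hR, hR'⟩ := fd_supp hc
  have hint : IntegrableOn (fun p : ℝ × ℝ => fderiv ℝ φ (p.1 * uv p.2) (uv p.2))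
      (Ioi (0 : ℝ) ×ˢ Ioo (-Real.pi) Real.pi) := by
    have h1 : IntegrableOn (fun p : ℝ × ℝ => fderiv ℝ φ (p.1 * uv p.2) (uv p.2))
        (Icc (0 : ℝ) R ×ˢ Icc (-Real.pi) Real.pi) :=
      hH.continuousOn.integrableOn_compact (isCompact_Icc.prod isCompact_Icc)
    refine h1.of_forall_sdiff_eq_zero (measurableSet_Ioi.prod measurableSet_Ioo) ?_
    rintro ⟨r, θ⟩ ⟨⟨hr, hθ⟩, hn⟩
    have hr' : (0 : ℝ) < r := hr
    have hRr : R ≤ r := by
      by_contra hcon
      exact hn ⟨⟨hr'.le, (not_le.1 hcon).le⟩, ⟨hθ.1.le, hθ.2.le⟩⟩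
    have := (hR' (r * uv θ) (by
      rw [norm_mul, uv_norm, mul_one, Complex.norm_real, Real.norm_eq_abs, abs_of_pos hr']
      exact hRr)).2
    show fderiv ℝ φ (r * uv θ) (uv θ) = 0
    rw [this]
    rfl
  have e2 : ∫ p in Ioi (0 : ℝ) ×ˢ Ioo (-Real.pi) Real.pi, fderiv ℝ φ (p.1 * uv p.2) (uv p.2) =
      ∫ θ in Ioo (-Real.pi) Real.pi, ∫ r in Ioi (0 : ℝ), fderiv ℝ φ (r * uv θ) (uv θ) := by
    rw [Measure.volume_eq_prod, ← Measure.prod_restrict, integral_prod_symm]
    rw [Measure.prod_restrict]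
    exact hint
  rw [e2]
  simp only [radial h hc]
  rw [setIntegral_const, Real.volume_real_Ioo_of_le (by linarith [Real.pi_pos]), smul_eq_mul]
  ring

end

theorem fs : S_FS := by
  intro φ h hc y
  have h' : ContDiff ℝ 1 (fun x => φ (x + y)) := h.comp (contDiff_id.add contDiff_const)
  have hc' : HasCompactSupport (fun x => φ (x + y)) :=
    hc.comp_homeomorph (Homeomorph.addRight y)
  have h1 := fs_int0 h' hc'
  have h2 := fs_val0 h' hc'
  simp only [fderiv_comp_add_right, zero_add] at h1 h2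
  have e1 : Integrable (fun x => fderiv ℝ φ x (x - y) / ‖x - y‖ ^ 2) := by
    have := h1.comp_sub_right y
    simpa only [sub_add_cancel] using this
  have e2 : ∫ x, fderiv ℝ φ x (x - y) / ‖x - y‖ ^ 2 = -(2 * Real.pi) * φ y := by
    rw [← h2, ← integral_sub_right_eq_self (fun x => fderiv ℝ φ (x + y) x / ‖x‖ ^ 2) y]
    simp only [sub_add_cancel]
  refine ⟨e1, ?_⟩
  rw [e2]
  field_simp

theorem fd_eq (φ : ℂ → ℝ) (x z : ℂ) :
    fderiv ℝ φ x z = inner ℝ z (fderiv ℝ φ x 1 • (1 : ℂ) + fderiv ℝ φ x Complex.I • Complex.I) := by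
  have e : z = z.re • (1 : ℂ) + z.im • Complex.I := by
    apply Complex.ext <;> simp
  conv_lhs => rw [e]
  rw [map_add, map_smul, map_smul, inner_add_right, inner_smul_right, inner_smul_right]
  simp only [Complex.inner, smul_eq_mul]
  simp
  ring

theorem gdot_eq (u φ : ℂ → ℝ) (x : ℂ) :
    gdot u φ x = fderiv ℝ u x
      (fderiv ℝ φ x 1 • (1 : ℂ) + fderiv ℝ φ x Complex.I • Complex.I) := by
  unfold gdot
  rw [map_add, map_smul, map_smul, smul_eq_mul, smul_eq_mul]
  ring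

theorem k_int (f φ : ℂ → ℝ) (hf : Continuous f) (hfc : HasCompactSupport f)
    (h : ContDiff ℝ 1 φ) (hc : HasCompactSupport φ) :
    Integrable (fun p : ℂ × ℂ => fderiv ℝ φ p.1 (p.1 - p.2) / ‖p.1 - p.2‖ ^ 2 * f p.2)
      (volume.prod volume) := by
  obtain ⟨M, hM0, hM⟩ := fd_bound h hc
  obtain ⟨R, hR, hR'⟩ := fd_supp hc
  obtain ⟨Q, hQ, hQ'⟩ := hfc.isCompact.isBounded.exists_pos_norm_lt
  have hQ2 : ∀ y : ℂ, Q ≤ ‖y‖ → f y = 0 := fun y hy =>
    image_eq_zero_of_notMem_tsupport fun hh => absurd (hQ' y hh) (not_lt.2 hy)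
  have hg : Integrable ((ball (0 : ℂ) (R + Q)).indicator fun z => M * ‖z‖⁻¹) := by
    rw [integrable_indicator_iff measurableSet_ball]
    exact (inv_norm_int (R + Q)).const_mul M
  have hf1 : Integrable f := hf.integrable_of_hasCompactSupport hfc
  have hdom := Integrable.convolution_integrand (ContinuousLinearMap.mul ℝ ℝ) hf1.norm hg
  have hcf := h.continuous_fderiv one_ne_zero
  have hmeas : AEStronglyMeasurable
      (fun p : ℂ × ℂ => fderiv ℝ φ p.1 (p.1 - p.2) / ‖p.1 - p.2‖ ^ 2 * f p.2)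
      (volume.prod volume) := by
    have h1 : Continuous fun p : ℂ × ℂ => fderiv ℝ φ p.1 (p.1 - p.2) :=
      (hcf.comp continuous_fst).clm_apply (continuous_fst.sub continuous_snd)
    have h2 : Continuous fun p : ℂ × ℂ => ‖p.1 - p.2‖ ^ 2 := by fun_prop
    have h3 : Continuous fun p : ℂ × ℂ => f p.2 := hf.comp continuous_snd
    exact ((h1.measurable.div h2.measurable).mul h3.measurable).aestronglyMeasurable
  refine hdom.mono' hmeas (Eventually.of_forall ?_)
  rintro ⟨x, y⟩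
  simp only [ContinuousLinearMap.mul_apply']
  by_cases hx : R ≤ ‖x‖
  · rw [(hR' x hx).2]
    simp only [zero_apply, zero_div, zero_mul, norm_zero]
    refine mul_nonneg (norm_nonneg _) (indicator_nonneg (fun z _ => ?_) _)
    positivity
  by_cases hy : Q ≤ ‖y‖
  · rw [hQ2 y hy]
    simp
  push Not at hx hy
  have hxy : x - y ∈ ball (0 : ℂ) (R + Q) := by
    rw [mem_ball_zero_iff]
    calc ‖x - y‖ ≤ ‖x‖ + ‖y‖ := norm_sub_le _ _
      _ < R + Q := by linarith
  rw [indicator_of_mem hxy, norm_mul, mul_comm]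
  refine mul_le_mul_of_nonneg_left ?_ (norm_nonneg _)
  rcases eq_or_ne (x - y) 0 with hz | hz
  · rw [hz]; simp
  · have hx' : 0 < ‖x - y‖ := norm_pos_iff.2 hz
    rw [norm_div, norm_pow, norm_norm, div_le_iff₀ (by positivity)]
    calc ‖fderiv ℝ φ x (x - y)‖ ≤ ‖fderiv ℝ φ x‖ * ‖x - y‖ := ContinuousLinearMap.le_opNorm _ _
      _ ≤ M * ‖x - y‖ := mul_le_mul_of_nonneg_right (hM x) hx'.le
      _ = M * ‖x - y‖⁻¹ * ‖x - y‖ ^ 2 := by field_simp

theorem potw (h1 : S_POTD) (h2 : S_FS) : S_POTW := by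
  intro f φ hf hfc hφ hφc
  obtain ⟨-, -, -, hP⟩ := h1 f hf hfc
  have e1 : ∀ x, gdot (pot f) φ x =
      -(1 / (2 * Real.pi)) * ∫ y, fderiv ℝ φ x (x - y) / ‖x - y‖ ^ 2 * f y := by
    intro x
    rw [gdot_eq, hP]
    simp only [← fd_eq]
  simp only [e1]
  rw [integral_const_mul]
  have hk := k_int f φ hf.continuous hfc hφ hφc
  rw [integral_integral_swap hk, ← integral_const_mul]
  refine integral_congr_ae (Eventually.of_forall fun y => ?_)
  simp only []
  rw [integral_mul_const, (h2 φ hφ hφc y).2]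
  ring

end Pool.Agent.W790.PS
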